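import Pool.Agent.H91.TBasis

set_option autoImplicit false

open Filter Topology H91.TBasis in
theorem Pool.Agent.Results.MP_8f7167_an.NotGamma.result :
    ∃ (t : ℕ → ℕ → ℝ) (E : Type) (_ : NormedAddCommGroup E) (_ : NormedSpace ℝ E)
    (x : ℕ → E), CompleteSpace E ∧ Consistent t ∧ (∀ y, ∃! α, Exp t x y α) ∧
      ∃ (y : E) (α : ℕ → ℝ) (n : ℕ), Exp t x y α ∧ ¬ ∃ s : E, Tendsto
        (fun m => ∑ i ∈ Finset.range m, ((∑' j, t n (j + i)) * α i) • x i) atTop (𝓝 s) :=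
  main
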